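import Pool.Agent.H62.CYC.DefsR

/-!
# CYC, task POS: the invariant form is positive on the fixed vectors of the half twist
-/

set_option autoImplicit false

namespace Pool.Agent.H27.CYC

open Finset Matrix Pool.Agent.H62.CYC
open scoped Real

/-- parity count -/
lemma cnt (p : ℕ) : ∀ n : ℕ, n ≤ 2 * ((range n).filter fun j => (j + p) % 2 = 0).card + 1
  | 0 => by simp
  | 1 => by simp
  | (n + 2) => by
    have ih := cnt p n
    rw [Finset.range_add_one, Finset.range_add_one, Finset.filter_insert, Finset.filter_insert]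
    by_cases h : (n + p) % 2 = 0
    · have h' : ¬ (n + 1 + p) % 2 = 0 := by omega
      rw [if_neg h', if_pos h, Finset.card_insert_of_notMem (by simp)]
      omega
    · have h' : (n + 1 + p) % 2 = 0 := by omega
      rw [if_pos h', if_neg h, Finset.card_insert_of_notMem (by simp)]
      omega

lemma cnt_fin (p n : ℕ) :
    n ≤ 2 * ((univ : Finset (Fin n)).filter fun j : Fin n => ((j : ℕ) + p) % 2 = 0).card + 1 := by
  have h := cnt p n
  have e : ((univ : Finset (Fin n)).filter fun j : Fin n => ((j : ℕ) + p) % 2 = 0).card =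
      ((range n).filter fun j => (j + p) % 2 = 0).card := by
    rw [Finset.card_filter, Finset.card_filter, Finset.sum_range]
  rw [e]; exact h

/-- the columns of `Y` -/
noncomputable def yv (M c K : ℕ) : ℕ → Fin (K + 1) → ℝ
  | 0 => Pi.single 0 1
  | (j + 1) => (aR M c K - lm M (c + j) • (1 : Matrix (Fin (K + 1)) (Fin (K + 1)) ℝ)) *ᵥ yv M c K j

lemma yv_succ (M c K j : ℕ) (i : Fin (K + 1)) :
    yv M c K (j + 1) i = ∑ m, aR M c K i m * yv M c K j m - lm M (c + j) * yv M c K j i := by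
  show ((aR M c K - lm M (c + j) • (1 : Matrix (Fin (K + 1)) (Fin (K + 1)) ℝ)) *ᵥ yv M c K j) i = _
  rw [Matrix.sub_mulVec, Matrix.smul_mulVec, Matrix.one_mulVec]
  simp [Matrix.mulVec, dotProduct]

lemma yv_tri (M c K : ℕ) : ∀ j : ℕ, (∀ i : Fin (K + 1), j < i → yv M c K j i = 0) ∧
    (∀ i : Fin (K + 1), (i : ℕ) = j → yv M c K j i = 1)
  | 0 => by
    constructor
    · intro i hi
      have : i ≠ 0 := by rintro rfl; simp at hi
      show (Pi.single 0 1 : Fin (K + 1) → ℝ) i = 0
      rw [Pi.single_eq_of_ne this]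
    · intro i hi
      have : i = 0 := Fin.ext hi
      subst this
      show (Pi.single 0 1 : Fin (K + 1) → ℝ) 0 = 1
      rw [Pi.single_eq_same]
  | (j + 1) => by
    obtain ⟨h1, h2⟩ := yv_tri M c K j
    constructor
    · intro i hi
      rw [yv_succ, h1 i (by omega), mul_zero, sub_zero]
      refine Finset.sum_eq_zero fun m _ => ?_
      by_cases hm : j < (m : ℕ)
      · rw [h1 m hm, mul_zero]
      · have : aR M c K i m = 0 := by
          unfold aR
          rw [if_neg (by omega), if_neg (by omega), if_neg (by omega)]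
        rw [this, zero_mul]
    · intro i hi
      rw [yv_succ, h1 i (by omega), mul_zero, sub_zero]
      have hj : j < K + 1 := by have := i.2; omega
      rw [Finset.sum_eq_single (⟨j, hj⟩ : Fin (K + 1))]
      · rw [h2 _ rfl, mul_one]
        unfold aR
        rw [if_pos hi]
      · intro m _ hm
        by_cases hm' : j < (m : ℕ)
        · rw [h1 m hm', mul_zero]
        · have hne : (m : ℕ) ≠ j := fun h => hm (Fin.ext h)
          have : aR M c K i m = 0 := by
            unfold aR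
            rw [if_neg (by omega), if_neg (by omega), if_neg (by omega)]
          rw [this, zero_mul]
      · intro h; exact absurd (Finset.mem_univ _) h

lemma F_yv {M c K : ℕ} {F : Matrix (Fin (K + 1)) (Fin (K + 1)) ℝ}
    (hint : F * aR M c K = bR M c K * F) : ∀ (j : ℕ) (a : Fin (K + 1)),
    (F *ᵥ yv M c K j) a = F a 0 * ∏ l ∈ range j, (lm M (c + a) - lm M (c + l))
  | 0, a => by
    show (F *ᵥ (Pi.single 0 1 : Fin (K + 1) → ℝ)) a = _
    rw [Matrix.mulVec_single_one]
    simp
  | (j + 1), a => by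
    have ih := F_yv hint j a
    show (F *ᵥ ((aR M c K - lm M (c + j) • (1 : Matrix (Fin (K + 1)) (Fin (K + 1)) ℝ)) *ᵥ
      yv M c K j)) a = _
    have e : F * (aR M c K - lm M (c + j) • (1 : Matrix (Fin (K + 1)) (Fin (K + 1)) ℝ)) =
        (bR M c K - lm M (c + j) • (1 : Matrix (Fin (K + 1)) (Fin (K + 1)) ℝ)) * F := by
      rw [Matrix.mul_sub, Matrix.sub_mul, hint, Matrix.mul_smul, Matrix.smul_mul, Matrix.mul_one,
        Matrix.one_mul]
    rw [Matrix.mulVec_mulVec, e, ← Matrix.mulVec_mulVec, Matrix.sub_mulVec, Matrix.smul_mulVec,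
      Matrix.one_mulVec, Pi.sub_apply, Pi.smul_apply, bR, Matrix.mulVec_diagonal, ih,
      Finset.prod_range_succ, smul_eq_mul]
    ring

lemma lm_lt {M a b : ℕ} (hab : a < b) (hb : b + 1 ≤ M) : lm M a < lm M b := by
  unfold lm
  have hab' : (a : ℝ) < b := by exact_mod_cast hab
  have hb' : (b : ℝ) + 1 ≤ M := by exact_mod_cast hb
  have hpos : (0 : ℝ) < 2 * M + 1 := by positivity
  have h1 : 2 * π * ((a : ℝ) + 1) / (2 * M + 1) < 2 * π * ((b : ℝ) + 1) / (2 * M + 1) := by
    apply div_lt_div_of_pos_right _ hpos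
    have := Real.pi_pos
    nlinarith
  have h2 : 2 * π * ((b : ℝ) + 1) / (2 * M + 1) ≤ π := by
    rw [div_le_iff₀ hpos]
    have := Real.pi_pos
    nlinarith
  have h0 : 0 ≤ 2 * π * ((a : ℝ) + 1) / (2 * M + 1) := by positivity
  have := Real.cos_lt_cos_of_nonneg_of_le_pi h0 h2 h1
  linarith

/-- the sign of `σ(2c+2+i)` -/
lemma sg_sign (ht : S_TRG) {M c i : ℕ} (h : c + i + 2 ≤ M) :
    (i < M - (2 * c + 1) → 0 < sg M (2 * c + 2 + i)) ∧
    (M - (2 * c + 1) ≤ i → sg M (2 * c + 2 + i) < 0) := by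
  obtain ⟨-, -, -, hp, hn⟩ := ht
  constructor
  · intro hi
    have h1 : 2 * c + 2 + i ≤ M := by omega
    have h1' : (2 * (c : ℝ) + 2 + i) ≤ M := by exact_mod_cast h1
    exact hp M _ (by positivity) (by linarith)
  · intro hi
    have h1 : M + 1 ≤ 2 * c + 2 + i := by omega
    have h2 : 2 * c + 2 + i ≤ 2 * M := by omega
    have h1' : (M : ℝ) + 1 ≤ 2 * (c : ℝ) + 2 + i := by exact_mod_cast h1
    have h2' : 2 * (c : ℝ) + 2 + i ≤ 2 * M := by exact_mod_cast h2
    exact hn M _ (by linarith) (by linarith)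

lemma sg_pos (ht : S_TRG) {M : ℕ} {x : ℝ} (h0 : 0 < x) (h1 : x ≤ M) : 0 < sg M x := by
  obtain ⟨-, -, -, hp, -⟩ := ht
  exact hp M x h0 (by linarith)

lemma J_sign (ht : S_TRG) {M c : ℕ} : ∀ j : ℕ, c + j + 1 ≤ M →
    0 < (-1 : ℝ) ^ (j - (M - (2 * c + 1))) * Jc M c j
  | 0, _ => by simp [Jc]
  | (j + 1), h => by
    have ih := J_sign ht (M := M) (c := c) j (by omega)
    have hJ : Jc M c (j + 1) = Jc M c j * be M c (j + 1) := by
      unfold Jc; rw [Finset.prod_range_succ]
    have hM : (c : ℝ) + j + 2 ≤ M := by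
      have : c + j + 2 ≤ M := by omega
      exact_mod_cast this
    have hc0 : (0 : ℝ) ≤ c := Nat.cast_nonneg c
    have hj0 : (0 : ℝ) ≤ j := Nat.cast_nonneg j
    have s1 : 0 < sg M ((j : ℝ) + 1) := sg_pos ht (by linarith) (by linarith)
    have s2 : 0 < sg M ((c : ℝ) + ((j : ℝ) + 1)) := sg_pos ht (by linarith) (by linarith)
    have s3 : 0 < sg M ((c : ℝ) + ((j : ℝ) + 1) + 1) := sg_pos ht (by linarith) (by linarith)
    have e0 : (2 * (c : ℝ) + 1 + ((j : ℝ) + 1)) = 2 * c + 2 + j := by ring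
    have hbe : be M c (j + 1) = sg M ((j : ℝ) + 1) * sg M (2 * c + 2 + j) /
        (sg M ((c : ℝ) + ((j : ℝ) + 1)) * sg M ((c : ℝ) + ((j : ℝ) + 1) + 1)) := by
      unfold be
      push_cast
      rw [e0]
    obtain ⟨p1, p2⟩ := sg_sign ht (M := M) (c := c) (i := j) (by omega)
    by_cases hjm : j < M - (2 * c + 1)
    · have h1 : j + 1 - (M - (2 * c + 1)) = j - (M - (2 * c + 1)) := by omega
      have hb : 0 < be M c (j + 1) := by
        rw [hbe]
        exact div_pos (mul_pos s1 (p1 hjm)) (mul_pos s2 s3)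
      rw [h1, hJ, ← mul_assoc]
      exact mul_pos ih hb
    · push Not at hjm
      have h1 : j + 1 - (M - (2 * c + 1)) = (j - (M - (2 * c + 1))) + 1 := by omega
      have hb : be M c (j + 1) < 0 := by
        rw [hbe]
        exact div_neg_of_neg_of_pos (mul_neg_of_pos_of_neg s1 (p2 hjm)) (mul_pos s2 s3)
      rw [h1, hJ, pow_succ]
      have : (-1 : ℝ) ^ (j - (M - (2 * c + 1))) * -1 * (Jc M c j * be M c (j + 1)) =
          ((-1 : ℝ) ^ (j - (M - (2 * c + 1))) * Jc M c j) * (-be M c (j + 1)) := by ring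
      rw [this]
      exact mul_pos ih (by linarith)

lemma P_sign (ht : S_TRG) {M c : ℕ} : ∀ j : ℕ, c + j + 1 ≤ M →
    0 < (-1 : ℝ) ^ (j - (M - (2 * c + 1))) *
      ∏ i ∈ range j, (sg M (2 * c + 2 + i) / sg M ((c : ℝ) + 1 + i))
  | 0, _ => by simp
  | (j + 1), h => by
    have ih := P_sign ht (M := M) (c := c) j (by omega)
    have hM : (c : ℝ) + j + 2 ≤ M := by
      have : c + j + 2 ≤ M := by omega
      exact_mod_cast this
    have hc0 : (0 : ℝ) ≤ c := Nat.cast_nonneg c
    have hj0 : (0 : ℝ) ≤ j := Nat.cast_nonneg j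
    have s2 : 0 < sg M ((c : ℝ) + 1 + j) := sg_pos ht (by linarith) (by linarith)
    obtain ⟨p1, p2⟩ := sg_sign ht (M := M) (c := c) (i := j) (by omega)
    rw [Finset.prod_range_succ]
    by_cases hjm : j < M - (2 * c + 1)
    · have h1 : j + 1 - (M - (2 * c + 1)) = j - (M - (2 * c + 1)) := by omega
      rw [h1, ← mul_assoc]
      exact mul_pos ih (div_pos (p1 hjm) s2)
    · push Not at hjm
      have h1 : j + 1 - (M - (2 * c + 1)) = (j - (M - (2 * c + 1))) + 1 := by omega
      rw [h1, pow_succ]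
      have hb := div_neg_of_neg_of_pos (p2 hjm) s2
      have : (-1 : ℝ) ^ (j - (M - (2 * c + 1))) * -1 *
          ((∏ i ∈ range j, (sg M (2 * c + 2 + i) / sg M ((c : ℝ) + 1 + i))) *
            (sg M (2 * c + 2 + j) / sg M ((c : ℝ) + 1 + j))) =
          ((-1 : ℝ) ^ (j - (M - (2 * c + 1))) *
            ∏ i ∈ range j, (sg M (2 * c + 2 + i) / sg M ((c : ℝ) + 1 + i))) *
            (-(sg M (2 * c + 2 + j) / sg M ((c : ℝ) + 1 + j))) := by ring
      rw [this]
      exact mul_pos ih (by linarith)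

theorem pos (ht : S_TRG) (hq : S_QC) (hl : S_LA2) : S_POS := by
  intro M c K F k hM hF hkA hkB
  classical
  set J : Fin (K + 1) → ℝ := fun i => Jc M c i with hJdef
  set g : Fin (K + 1) → ℝ := fun j => J j * (F j 0 *
    ∏ l ∈ range (j : ℕ), (lm M (c + j) - lm M (c + l))) with hgdef
  set Y : Matrix (Fin (K + 1)) (Fin (K + 1)) ℝ := Matrix.of fun i j => yv M c K j i with hY
  have hYa : ∀ i j, Y i j = yv M c K j i := fun i j => rfl
  -- entries
  have hG : ∀ i j : Fin (K + 1), (Yᵀ * diagonal J * F * Y) i j =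
      ∑ a, yv M c K i a * J a * (F a 0 * ∏ l ∈ range (j : ℕ), (lm M (c + a) - lm M (c + l))) := by
    intro i j
    rw [Matrix.mul_assoc, Matrix.mul_apply]
    refine Finset.sum_congr rfl fun a _ => ?_
    rw [Matrix.mul_diagonal, Matrix.transpose_apply, hYa, ← F_yv hF.int j a]
    rfl
  have hGlt : ∀ i j : Fin (K + 1), i < j → (Yᵀ * diagonal J * F * Y) i j = 0 := by
    intro i j hij
    rw [hG]
    refine Finset.sum_eq_zero fun a _ => ?_
    by_cases ha : (i : ℕ) < a
    · rw [(yv_tri M c K i).1 a ha, zero_mul, zero_mul]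
    · have haj : (a : ℕ) < j := by
        have : (i : ℕ) < j := hij
        omega
      rw [Finset.prod_eq_zero (Finset.mem_range.2 haj) (sub_self _), mul_zero, mul_zero]
  have hadj : Fᵀ * diagonal J = diagonal J * F := by
    ext i j
    rw [Matrix.mul_diagonal, Matrix.diagonal_mul, Matrix.transpose_apply, mul_comm]
    exact (hF.adj i j).symm
  have hsym : (Yᵀ * diagonal J * F * Y)ᵀ = Yᵀ * diagonal J * F * Y := by
    rw [Matrix.transpose_mul, Matrix.transpose_mul, Matrix.transpose_mul, Matrix.transpose_transpose,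
      Matrix.diagonal_transpose, ← Matrix.mul_assoc Fᵀ, hadj, Matrix.mul_assoc, Matrix.mul_assoc,
      Matrix.mul_assoc]
  have hdiag : Yᵀ * diagonal J * F * Y = diagonal g := by
    ext i j
    rcases lt_trichotomy i j with h | h | h
    · rw [hGlt i j h, Matrix.diagonal_apply_ne _ h.ne]
    · subst h
      rw [Matrix.diagonal_apply_eq, hG, Finset.sum_eq_single i]
      · rw [(yv_tri M c K i).2 i rfl, one_mul]
      · intro a _ hai
        by_cases ha : (i : ℕ) < a
        · rw [(yv_tri M c K i).1 a ha, zero_mul, zero_mul]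
        · have haj : (a : ℕ) < i := by
            have : (a : ℕ) ≠ i := fun h => hai (Fin.ext h)
            omega
          rw [Finset.prod_eq_zero (Finset.mem_range.2 haj) (sub_self _), mul_zero, mul_zero]
      · intro h; exact absurd (Finset.mem_univ _) h
    · rw [Matrix.diagonal_apply_ne _ h.ne', ← hsym, Matrix.transpose_apply]
      exact hGlt j i h
  have hdet : Y.det ≠ 0 := by
    have hbt : Y.BlockTriangular id := by
      intro i j hij
      exact (yv_tri M c K j).1 i hij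
    rw [Matrix.det_of_isUpperTriangular hbt]
    refine Finset.prod_ne_zero_iff.2 fun i _ => ?_
    rw [hYa, (yv_tri M c K i).2 i rfl]
    exact one_ne_zero
  -- signs
  have hjM : ∀ j : Fin (K + 1), c + (j : ℕ) + 1 ≤ M := fun j => by have := j.2; omega
  have sJ : ∀ j : Fin (K + 1), 0 < (-1 : ℝ) ^ ((j : ℕ) - (M - (2 * c + 1))) * J j := fun j =>
    J_sign ht (j : ℕ) (hjM j)
  have hJ0 : ∀ j : Fin (K + 1), J j ≠ 0 := fun j h => by
    have := sJ j
    rw [h, mul_zero] at this
    exact lt_irrefl _ this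
  have hprod : ∀ j : Fin (K + 1), 0 < ∏ l ∈ range (j : ℕ), (lm M (c + j) - lm M (c + l)) := by
    intro j
    refine Finset.prod_pos fun l hl => ?_
    have hl' := Finset.mem_range.1 hl
    have := lm_lt (M := M) (a := c + l) (b := c + j) (by omega) (by have := hjM j; omega)
    linarith
  have hgk : ∀ j : Fin (K + 1), g j = k * Qp M c j (lm M c) *
      ∏ l ∈ range (j : ℕ), (lm M (c + j) - lm M (c + l)) := by
    intro j
    have h1 := hF.frm j 0
    have h2 : F j 0 = k * Qp M c j (lm M c) / J j := by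
      rw [h1]
      show k * Qp M c 0 (lm M c) * Qp M c j (lm M (c + 0)) / Jc M c j = _
      rw [show Qp M c 0 (lm M c) = 1 from by rw [Qp], mul_one, add_zero]
    show J j * (F j 0 * _) = _
    rw [h2, ← mul_assoc, mul_div_cancel₀ _ (hJ0 j)]
  have sg' : ∀ j : Fin (K + 1), ∀ e : ℕ, 0 < (-1 : ℝ) ^ e * k →
      0 < (-1 : ℝ) ^ (e + ((j : ℕ) + ((j : ℕ) - (M - (2 * c + 1))))) * g j := by
    intro j e he
    rw [hgk j, hq.1 M c j (hjM j)]
    have h1 := P_sign ht (M := M) (c := c) (j : ℕ) (hjM j)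
    have h2 := hprod j
    have h3 := mul_pos (mul_pos he h1) h2
    have h4 : ((-1 : ℝ) ^ (j : ℕ)) * (-1) ^ (j : ℕ) = 1 := by
      rw [← mul_pow]; simp
    have e1 : (-1 : ℝ) ^ (e + ((j : ℕ) + ((j : ℕ) - (M - (2 * c + 1))))) *
        (k * ((-1) ^ (j : ℕ) * ∏ i ∈ range (j : ℕ), (sg M (2 * c + 2 + i) / sg M ((c : ℝ) + 1 + i))) *
          ∏ l ∈ range (j : ℕ), (lm M (c + j) - lm M (c + l))) =
        ((-1 : ℝ) ^ (j : ℕ) * (-1) ^ (j : ℕ)) * ((-1 : ℝ) ^ e * k *
          ((-1 : ℝ) ^ ((j : ℕ) - (M - (2 * c + 1))) *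
            ∏ i ∈ range (j : ℕ), (sg M (2 * c + 2 + i) / sg M ((c : ℝ) + 1 + i))) *
          ∏ l ∈ range (j : ℕ), (lm M (c + j) - lm M (c + l))) := by
      rw [pow_add, pow_add]; ring
    rw [e1, h4, one_mul]
    exact h3
  obtain ⟨p, hp⟩ : ∃ p : ℕ, ∀ j : Fin (K + 1),
      (0 < J j ∨ 0 < g j) ∧ (((j : ℕ) + p) % 2 = 0 → 0 < J j ∧ 0 < g j) := by
    rcases Nat.lt_or_ge (2 * c) M with hc | hc
    · refine ⟨M + 1, fun j => ?_⟩
      have h1 := sg' j (M + 1) (hkB hc)
      have h2 := sJ j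
      by_cases hjm : (j : ℕ) ≤ M - (2 * c + 1)
      · have e1 : (j : ℕ) - (M - (2 * c + 1)) = 0 := by omega
        rw [e1, pow_zero, one_mul] at h2
        refine ⟨Or.inl h2, fun hpar => ⟨h2, ?_⟩⟩
        rw [e1] at h1
        have hev : Even (M + 1 + ((j : ℕ) + 0)) := by rw [Nat.even_iff]; omega
        rw [hev.neg_one_pow, one_mul] at h1
        exact h1
      · have hev : Even (M + 1 + ((j : ℕ) + ((j : ℕ) - (M - (2 * c + 1))))) := by
          rw [Nat.even_iff]; omega
        rw [hev.neg_one_pow, one_mul] at h1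
        refine ⟨Or.inr h1, fun hpar => ⟨?_, h1⟩⟩
        have hev' : Even ((j : ℕ) - (M - (2 * c + 1))) := by rw [Nat.even_iff]; omega
        rw [hev'.neg_one_pow, one_mul] at h2
        exact h2
    · refine ⟨0, fun j => ?_⟩
      have h1 := sg' j 0 (by simpa using hkA hc)
      have h2 := sJ j
      have e1 : M - (2 * c + 1) = 0 := by omega
      rw [e1, Nat.sub_zero] at h1 h2
      have hev : Even (0 + ((j : ℕ) + (j : ℕ))) := by rw [Nat.even_iff]; omega
      rw [hev.neg_one_pow, one_mul] at h1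
      refine ⟨Or.inr h1, fun hpar => ⟨?_, h1⟩⟩
      have hev' : Even (j : ℕ) := by rw [Nat.even_iff]; omega
      rw [hev'.neg_one_pow, one_mul] at h2
      exact h2
  have hcount : (K + 1) + ((univ : Finset (Fin (K + 1))).filter fun j : Fin (K + 1) => ((j : ℕ) + p) % 2 = 0).card ≤
      (univ.filter fun i => 0 < J i).card + (univ.filter fun i => 0 < g i).card := by
    have hK : K + 1 = ∑ _j : Fin (K + 1), 1 := by simp
    rw [Finset.card_filter, Finset.card_filter, Finset.card_filter, ← Finset.sum_add_distrib]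
    nth_rewrite 1 [hK]
    rw [← Finset.sum_add_distrib]
    refine Finset.sum_le_sum fun j _ => ?_
    obtain ⟨h1, h2⟩ := hp j
    by_cases hpar : ((j : ℕ) + p) % 2 = 0
    · obtain ⟨h3, h4⟩ := h2 hpar
      rw [if_pos hpar, if_pos h3, if_pos h4]
    · rw [if_neg hpar]
      rcases h1 with h1 | h1
      · rw [if_pos h1]; omega
      · rw [if_pos h1]; omega
  have hc2 := cnt_fin p (K + 1)
  have htr := (abs_le.1 hF.tr).2
  refine hl (K + 1) J g F Y hF.sq hF.adj hdet hdiag ?_
  have h5 : (3 * (K + 1) : ℕ) ≤ 2 * ((univ.filter fun i => 0 < J i).card +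
      (univ.filter fun i => 0 < g i).card) + 1 := by omega
  have h6 : (3 * ((K : ℝ) + 1)) ≤ 2 * (((univ.filter fun i => 0 < J i).card : ℝ) +
      ((univ.filter fun i => 0 < g i).card : ℝ)) + 1 := by exact_mod_cast h5
  push_cast
  linarith

end Pool.Agent.H27.CYC
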