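import Pool.Agent.H62.CYC.DefsR

/-!
# CYC, task TRF: the trace of `D F D⁻¹ F`
-/

set_option autoImplicit false

namespace Pool.Agent.H27.CYC

open Finset Matrix Pool.Agent.H62.CYC
open scoped Real

/-! ### nonvanishing -/

lemma sgn_ne (ht : S_TRG) {M j : ℕ} (h0 : 1 ≤ j) (h1 : j ≤ 2 * M) : sg M (j : ℝ) ≠ 0 := by
  obtain ⟨-, -, -, hp, hn⟩ := ht
  have h0' : (1 : ℝ) ≤ j := by exact_mod_cast h0
  have h1' : (j : ℝ) ≤ 2 * M := by exact_mod_cast h1
  rcases Nat.lt_or_ge M j with h | h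
  · have h' : (M : ℝ) + 1 ≤ j := by exact_mod_cast h
    exact (hn M j (by linarith) (by linarith)).ne
  · have h' : (j : ℝ) ≤ M := by exact_mod_cast h
    exact (hp M j (by linarith) (by linarith)).ne'

lemma sgn_ne' (ht : S_TRG) {M j : ℕ} (h1 : j + 1 ≤ 2 * M) : sg M ((j : ℝ) + 1) ≠ 0 := by
  have := sgn_ne ht (M := M) (j := j + 1) (by omega) h1
  push_cast at this
  exact this

lemma sf_ne (ht : S_TRG) {M n : ℕ} (h : n ≤ 2 * M) : sf M n ≠ 0 := by
  unfold sf
  refine Finset.prod_ne_zero_iff.2 fun j hj => ?_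
  have := Finset.mem_range.1 hj
  exact sgn_ne' ht (by omega)

lemma sf_succ (M n : ℕ) : sf M (n + 1) = sf M n * sg M ((n : ℝ) + 1) := by
  unfold sf; rw [Finset.prod_range_succ]

/-- the nodes -/
noncomputable def yn (M b : ℕ) : ℝ := yy M ((b : ℝ) + 1)

/-- the weights -/
noncomputable def wn (M b : ℕ) : ℝ := sg M ((b : ℝ) + 1) ^ 2

lemma yn_sub (ht : S_TRG) (M a l : ℕ) (h : l ≤ a) : yn M a - yn M l =
    sg M ((a : ℝ) + 1 + l + 1) * sg M ((a - l : ℕ) : ℝ) := by
  have := ht.1 M ((a : ℝ) + 1) ((l : ℝ) + 1)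
  unfold yn
  rw [← this, Nat.cast_sub h]
  ring_nf

lemma prod_yn (ht : S_TRG) (M a : ℕ) (ha : a + 1 ≤ M) :
    ∏ l ∈ range a, (yn M a - yn M l) = sf M a * sf M (2 * a + 1) / sf M (a + 1) := by
  have h1 : ∏ l ∈ range a, (yn M a - yn M l) =
      (∏ l ∈ range a, sg M ((a : ℝ) + 1 + l + 1)) * ∏ l ∈ range a, sg M ((a - l : ℕ) : ℝ) := by
    rw [← Finset.prod_mul_distrib]
    refine Finset.prod_congr rfl fun l hl => ?_
    exact yn_sub ht M a l (Finset.mem_range.1 hl).le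
  have h2 : ∏ l ∈ range a, sg M ((a - l : ℕ) : ℝ) = sf M a := by
    unfold sf
    rw [← Finset.prod_range_reflect]
    refine Finset.prod_congr rfl fun l hl => ?_
    have := Finset.mem_range.1 hl
    congr 1
    have e : a - (a - 1 - l) = l + 1 := by omega
    rw [e]; push_cast; ring
  have h3 : sf M (2 * a + 1) = sf M (a + 1) * ∏ l ∈ range a, sg M ((a : ℝ) + 1 + l + 1) := by
    unfold sf
    rw [show 2 * a + 1 = (a + 1) + a by ring, Finset.prod_range_add]
    congr 1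
    refine Finset.prod_congr rfl fun l _ => ?_
    push_cast; ring_nf
  have h4 : sf M (a + 1) ≠ 0 := sf_ne ht (by omega)
  rw [h1, h2, h3]
  field_simp

lemma yn_ne (ht : S_TRG) {M i j : ℕ} (hi : i < M) (hj : j < M) (hij : i ≠ j) : yn M i ≠ yn M j := by
  have key : ∀ a l : ℕ, l < a → a < M → yn M a - yn M l ≠ 0 := by
    intro a l hl ha
    rw [yn_sub ht M a l hl.le]
    refine mul_ne_zero ?_ (sgn_ne ht (by omega) (by omega))
    have := sgn_ne ht (M := M) (j := a + 1 + l + 1) (by omega) (by omega)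
    push_cast at this
    exact this
  rcases Nat.lt_or_gt_of_ne hij with h | h
  · intro e
    exact key j i h hj (by rw [e, sub_self])
  · intro e
    exact key i j h hi (by rw [e, sub_self])

/-! ### polynomials -/

open Polynomial in
lemma two_sub_nd : (C (2 : ℝ) - X).natDegree ≤ 1 := by
  refine (natDegree_sub_le _ _).trans ?_
  simp

open Polynomial in
lemma EO (M c : ℕ) : ∀ m : ℕ, ∃ E O : ℝ[X], E.natDegree ≤ m ∧ E.coeff m = (-1) ^ m ∧
    O.natDegree ≤ m ∧ O.coeff m = (-1) ^ m ∧ (∀ x, Qp M c (2 * m) x = E.eval (2 - x ^ 2)) ∧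
    (∀ x, Qp M c (2 * m + 1) x = x * O.eval (2 - x ^ 2))
  | 0 => ⟨1, 1, by simp, by simp, by simp, by simp, by intro x; simp [Qp], by intro x; simp [Qp]⟩
  | (m + 1) => by
    obtain ⟨E, O, hE, hE', hO, hO', hQ1, hQ2⟩ := EO M c m
    have n1 : ((C (2 : ℝ) - X) * O - C (be M c (2 * m + 1)) * E).natDegree ≤ m + 1 := by
      refine (natDegree_sub_le _ _).trans (max_le ?_ ?_)
      · refine natDegree_mul_le.trans ?_
        have := two_sub_nd
        omega
      · refine (natDegree_C_mul_le _ _).trans (by omega)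
    have c1 : ((C (2 : ℝ) - X) * O - C (be M c (2 * m + 1)) * E).coeff (m + 1) = (-1) ^ (m + 1) := by
      rw [coeff_sub, coeff_C_mul, coeff_eq_zero_of_natDegree_lt (p := E) (by omega), mul_zero,
        sub_zero, add_comm m 1, coeff_mul_add_eq_of_natDegree_le two_sub_nd hO, hO']
      simp [pow_add]
    have q1 : ∀ x, Qp M c (2 * (m + 1)) x =
        ((C (2 : ℝ) - X) * O - C (be M c (2 * m + 1)) * E).eval (2 - x ^ 2) := by
      intro x
      rw [show 2 * (m + 1) = 2 * m + 2 by ring, Qp, hQ1, hQ2]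
      simp only [eval_sub, eval_mul, eval_C, eval_X]
      ring
    refine ⟨(C (2 : ℝ) - X) * O - C (be M c (2 * m + 1)) * E,
      ((C (2 : ℝ) - X) * O - C (be M c (2 * m + 1)) * E) - C (be M c (2 * m + 2)) * O,
      n1, c1, ?_, ?_, q1, ?_⟩
    · refine (natDegree_sub_le _ _).trans (max_le n1 ?_)
      exact (natDegree_C_mul_le _ _).trans (by omega)
    · rw [coeff_sub, c1, coeff_C_mul, coeff_eq_zero_of_natDegree_lt (p := O) (by omega), mul_zero,
        sub_zero]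
    · intro x
      rw [show 2 * (m + 1) + 1 = (2 * m + 1) + 2 by ring, Qp,
        show 2 * m + 1 + 1 = 2 * (m + 1) by ring, q1, hQ2]
      simp only [eval_sub, eval_mul, eval_C, eval_X]
      ring

open Polynomial in
lemma Rex (M c j : ℕ) : ∃ R : ℝ[X], R.natDegree ≤ j ∧ R.coeff j = (-1) ^ j ∧
    ∀ x, Qp M c j x ^ 2 = R.eval (2 - x ^ 2) := by
  obtain ⟨m, hm⟩ := Nat.even_or_odd' j
  obtain ⟨E, O, hE, hE', hO, hO', hQ1, hQ2⟩ := EO M c m
  rcases hm with hm | hm
  · refine ⟨E * E, ?_, ?_, ?_⟩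
    · refine natDegree_mul_le.trans (by omega)
    · rw [hm, two_mul, coeff_mul_add_eq_of_natDegree_le hE hE, hE', pow_add]
    · intro x
      rw [hm, hQ1, eval_mul]; ring
  · refine ⟨(C (2 : ℝ) - X) * (O * O), ?_, ?_, ?_⟩
    · refine natDegree_mul_le.trans ?_
      have h1 := two_sub_nd
      have h2 : (O * O).natDegree ≤ m + m := natDegree_mul_le.trans (by omega)
      omega
    · have h2 : (O * O).natDegree ≤ m + m := natDegree_mul_le.trans (by omega)
      rw [hm, show 2 * m + 1 = 1 + (m + m) by ring, coeff_mul_add_eq_of_natDegree_le two_sub_nd h2,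
        coeff_mul_add_eq_of_natDegree_le hO hO, hO']
      simp [pow_add]
    · intro x
      rw [hm, hQ2]
      simp only [eval_mul, eval_sub, eval_C, eval_X]
      ring

open Polynomial in
lemma Pex (y : ℕ → ℝ) : ∀ n : ℕ, (∏ l ∈ range n, (X - C (y l))).natDegree ≤ n ∧
    (∏ l ∈ range n, (X - C (y l))).coeff n = 1
  | 0 => by simp
  | (n + 1) => by
    obtain ⟨h1, h2⟩ := Pex y n
    rw [Finset.prod_range_succ]
    refine ⟨?_, ?_⟩
    · refine natDegree_mul_le.trans ?_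
      rw [natDegree_X_sub_C]; omega
    · rw [coeff_mul_add_eq_of_natDegree_le h1 (natDegree_X_sub_C_le _), h2]
      simp

/-! ### sums -/

lemma sum1 {c K M : ℕ} (hM : c + (K + 1) = M) (h : ℕ → ℂ) (h0 : ∀ a < c, h a = 0) :
    ∑ a ∈ range M, h a = ∑ i ∈ range (K + 1), h (c + i) := by
  subst hM
  rw [Finset.sum_range_add, Finset.sum_eq_zero fun a ha => h0 a (Finset.mem_range.1 ha), zero_add]

lemma sum1' {c K M : ℕ} (hM : c + (K + 1) = M) (h : ℕ → ℂ) (h0 : ∀ a < c, h a = 0) :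
    ∑ a ∈ range M, h a = ∑ i : Fin (K + 1), h (c + i) := by
  rw [sum1 hM h h0, Finset.sum_range]

/-! ### the entries -/

lemma Jne (ht : S_TRG) (hq : S_QC) {M c j : ℕ} (h : c + j + 1 ≤ M) : Jc M c j ≠ 0 := by
  rw [hq.2.1 M c j h]
  refine div_ne_zero (mul_ne_zero (mul_ne_zero (mul_ne_zero ?_ ?_) ?_) ?_)
    (mul_ne_zero (mul_ne_zero ?_ ?_) ?_) <;> exact sf_ne ht (by omega)

lemma FF (ht : S_TRG) (hq : S_QC) {M c K : ℕ} {F : Matrix (Fin (K + 1)) (Fin (K + 1)) ℝ} {k : ℝ}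
    (hM : c + (K + 1) = M) (hF : HalfR M c K F k) (i j : Fin (K + 1)) :
    F i j * F j i = k ^ 2 / (Jc M c i * (sg M ((c : ℝ) + 1) * sf M (2 * c + 1))) *
      (wn M (c + j) * ∏ l ∈ range c, (yn M (c + j) - yn M l)) * Qp M c i (lm M (c + j)) ^ 2 := by
  have hi := i.2
  have hj := j.2
  have Ji := Jne ht hq (M := M) (c := c) (j := i) (by omega)
  have Jj := Jne ht hq (M := M) (c := c) (j := j) (by omega)
  have h1 : F j i = Jc M c i * F i j / Jc M c j := by
    rw [eq_div_iff Jj, mul_comm]; exact (hF.adj i j).symm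
  have h2 := hF.frm i j
  have h3 := hq.2.2 M c j (by omega)
  have h4 : wn M (c + j) * ∏ l ∈ range c, (yn M (c + j) - yn M l) =
      sg M ((c : ℝ) + j + 1) ^ 2 * ∏ l ∈ range c, (yy M ((c : ℝ) + j + 1) - yy M ((l : ℝ) + 1)) := by
    unfold wn yn
    push_cast
    rfl
  rw [h4]
  have h5 : F i j * F j i = k ^ 2 * (Qp M c j (lm M c) ^ 2 / Jc M c j) *
      Qp M c i (lm M (c + j)) ^ 2 / Jc M c i := by
    rw [h1, h2]; field_simp
  rw [h5, h3]
  have n1 : sg M ((c : ℝ) + 1) ≠ 0 := sgn_ne' ht (by omega)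
  have n2 : sf M (2 * c + 1) ≠ 0 := sf_ne ht (by omega)
  field_simp

/-- the moments -/
noncomputable def tau (M a : ℕ) (t : ℕ → ℂ) : ℂ :=
  ∑ i ∈ range M, (wn M i : ℂ) * (∏ l ∈ range a, ((yn M i : ℂ) - yn M l)) * t i

lemma tau_star (M a : ℕ) (t : ℕ → ℂ) : tau M a (fun b => star (t b)) = star (tau M a t) := by
  unfold tau
  rw [star_sum]
  refine Finset.sum_congr rfl fun i _ => ?_
  simp only [star_mul', star_prod, star_sub, Complex.star_def, Complex.conj_ofReal]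

lemma tau_sq (ht : S_TRG) (hq : S_QC) {M : ℕ} {t : ℕ → ℂ}
    (hblk : ∀ c K : ℕ, c + (K + 1) = M → ∃ (F : Matrix (Fin (K + 1)) (Fin (K + 1)) ℝ) (k : ℝ),
      HalfR M c K F k ∧ ‖∑ j : Fin (K + 1), (F 0 j : ℂ) * t (c + j) * F j 0‖ = |k|)
    {a : ℕ} (ha : a < M) : tau M a t * tau M a (fun b => star (t b)) =
      (((2 * M + 1) * sf M (2 * a + 1) ^ 2 / sf M a ^ 2 : ℝ) : ℂ) := by
  obtain ⟨F, k, hF, hn⟩ := hblk a (M - 1 - a) (by omega)
  have hM : a + (M - 1 - a + 1) = M := by omega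
  have n1 : sg M ((a : ℝ) + 1) ≠ 0 := sgn_ne' ht (by omega)
  have n2 : sf M (2 * a + 1) ≠ 0 := sf_ne ht (by omega)
  have n3 : sf M a ≠ 0 := sf_ne ht (by omega)
  have n4 : sf M (a + 1) ≠ 0 := sf_ne ht (by omega)
  have n5 : (2 * (M : ℝ) + 1) ≠ 0 := by positivity
  have hk : k ≠ 0 := by
    intro h
    have := hF.ksq
    rw [h] at this
    have h' : sf M (a + 1) ^ 2 / (2 * M + 1) ≠ 0 := div_ne_zero (pow_ne_zero 2 n4) n5
    exact h' (by rw [← this]; ring)
  have e : ∑ j : Fin (M - 1 - a + 1), (F 0 j : ℂ) * t (a + j) * F j 0 =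
      ((k ^ 2 / (sg M ((a : ℝ) + 1) * sf M (2 * a + 1)) : ℝ) : ℂ) * tau M a t := by
    unfold tau
    rw [sum1' hM, Finset.mul_sum]
    · refine Finset.sum_congr rfl fun j _ => ?_
      have h1 := FF ht hq hM hF 0 j
      have h2 : Jc M a ((0 : Fin (M - 1 - a + 1)) : ℕ) = 1 := by simp [Jc]
      have h3 : Qp M a ((0 : Fin (M - 1 - a + 1)) : ℕ) (lm M (a + j)) = 1 := by
        show Qp M a 0 _ = 1
        rw [Qp]
      rw [h2, h3, one_mul, one_pow, mul_one] at h1
      have h4 : (F 0 j : ℂ) * t (a + j) * F j 0 = ((F 0 j * F j 0 : ℝ) : ℂ) * t (a + j) := by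
        push_cast; ring
      rw [h4, h1]
      push_cast
      ring
    · intro b hb
      rw [Finset.prod_eq_zero (Finset.mem_range.2 hb) (sub_self _), mul_zero, zero_mul]
  rw [e, norm_mul, Complex.norm_real, Real.norm_eq_abs] at hn
  rw [tau_star, Complex.star_def, Complex.mul_conj, Complex.normSq_eq_norm_sq]
  congr 1
  have h6 : ‖tau M a t‖ ^ 2 = (sg M ((a : ℝ) + 1) * sf M (2 * a + 1)) ^ 2 / k ^ 2 := by
    have h7 : (|k ^ 2 / (sg M ((a : ℝ) + 1) * sf M (2 * a + 1))| * ‖tau M a t‖) ^ 2 = |k| ^ 2 := by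
      rw [hn]
    rw [mul_pow, sq_abs, sq_abs, div_pow] at h7
    have n6 : (sg M ((a : ℝ) + 1) * sf M (2 * a + 1)) ^ 2 ≠ 0 := pow_ne_zero 2 (mul_ne_zero n1 n2)
    have n7 : k ^ 2 ≠ 0 := pow_ne_zero 2 hk
    rw [eq_div_iff n7]
    have h8 : (k ^ 2) ^ 2 * ‖tau M a t‖ ^ 2 =
        k ^ 2 * (sg M ((a : ℝ) + 1) * sf M (2 * a + 1)) ^ 2 := by
      rw [div_mul_eq_mul_div, div_eq_iff n6] at h7
      exact h7
    have h9 : k ^ 2 * (‖tau M a t‖ ^ 2 * k ^ 2) =
        k ^ 2 * (sg M ((a : ℝ) + 1) * sf M (2 * a + 1)) ^ 2 := by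
      rw [← h8]; ring
    exact mul_left_cancel₀ n7 h9
  rw [h6, hF.ksq, sf_succ M a]
  field_simp

open Polynomial in
theorem trf (ht : S_TRG) (hq : S_QC) (hd : S_TRD) : S_TRF := by
  intro M t htn hblk c K F k hM hF
  choose R hR1 hR2 hR3 using Rex M c
  set D : ℝ := sg M ((c : ℝ) + 1) * sf M (2 * c + 1) with hD
  set κ : ℕ → ℝ := fun i => k ^ 2 / (Jc M c i * D) with hκ
  set U : ℕ → ℝ[X] := fun a => if a < c then 0 else
    C (κ (a - c)) * ((∏ l ∈ range c, (X - C (yn M l))) * R (a - c)) with hU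
  set f : ℕ → ℕ → ℝ := fun a b => wn M b * (U a).eval (yn M b) with hf
  have hUc : ∀ i : ℕ, U (c + i) = C (κ i) * ((∏ l ∈ range c, (X - C (yn M l))) * R i) := by
    intro i
    rw [hU]
    simp only
    rw [if_neg (by omega), Nat.add_sub_cancel_left]
  have hUlt : ∀ a, a < c → U a = 0 := fun a ha => by rw [hU]; simp only; rw [if_pos ha]
  have hlm : ∀ a : ℕ, 2 - lm M a ^ 2 = yn M a := by
    intro a
    rw [ht.2.2.1 M a]
    unfold yn
    ring
  have hff : ∀ i j : Fin (K + 1), f (c + i) (c + j) = F i j * F j i := by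
    intro i j
    rw [FF ht hq hM hF i j, hR3, hlm]
    show wn M (c + j) * (U (c + i)).eval (yn M (c + j)) = _
    rw [hUc, eval_mul, eval_C, eval_mul, eval_prod]
    simp only [eval_sub, eval_X, eval_C]
    rw [hκ, hD]
    ring
  have hf0 : ∀ a b, a < c ∨ b < c → f a b = 0 := by
    intro a b h
    show wn M b * (U a).eval (yn M b) = 0
    rcases Nat.lt_or_ge a c with ha | ha
    · rw [hUlt a ha, eval_zero, mul_zero]
    · have hb : b < c := by omega
      obtain ⟨i, rfl⟩ := Nat.exists_eq_add_of_le ha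
      rw [hUc, eval_mul, eval_mul, eval_prod, Finset.prod_eq_zero (Finset.mem_range.2 hb) (by simp)]
      ring
  have hsymm : ∀ i < M, ∀ j < M, f i j = f j i := by
    intro a ha b hb
    by_cases h : a < c ∨ b < c
    · rw [hf0 a b h, hf0 b a h.symm]
    · push Not at h
      obtain ⟨i, rfl⟩ := Nat.exists_eq_add_of_le h.1
      obtain ⟨j, rfl⟩ := Nat.exists_eq_add_of_le h.2
      have h1 := hff ⟨i, by omega⟩ ⟨j, by omega⟩
      have h2 := hff ⟨j, by omega⟩ ⟨i, by omega⟩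
      simp only at h1 h2
      rw [h1, h2, mul_comm]
  have hPR : ∀ i, ((∏ l ∈ range c, (X - C (yn M l))) * R i).natDegree ≤ c + i := by
    intro i
    refine natDegree_mul_le.trans ?_
    have := (Pex (yn M) c).1
    have := hR1 i
    omega
  have hdeg : ∀ i < M, (U i).natDegree ≤ i := by
    intro a _
    by_cases h : a < c
    · rw [hUlt a h]; simp
    · push Not at h
      obtain ⟨i, rfl⟩ := Nat.exists_eq_add_of_le h
      rw [hUc]
      exact (natDegree_C_mul_le _ _).trans (hPR i)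
  have hcoeff : ∀ i : ℕ, (U (c + i)).coeff (c + i) = κ i * (-1) ^ i := by
    intro i
    rw [hUc, coeff_C_mul, coeff_mul_add_eq_of_natDegree_le (Pex (yn M) c).1 (hR1 i), (Pex (yn M) c).2, hR2,
      one_mul]
  have main := hd M (yn M) (wn M) f U t (fun b => star (t b))
    (fun i hi j hj hij => yn_ne ht hi hj hij)
    (fun i hi => pow_ne_zero 2 (sgn_ne' ht (by omega))) hsymm hdeg (fun i _ j _ => rfl)
  -- the left side
  have hL : ∑ i ∈ range M, ∑ j ∈ range M, t i * star (t j) * (f i j : ℂ) =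
      ∑ i : Fin (K + 1), ∑ j : Fin (K + 1), t (c + i) * star (t (c + j)) * (F i j * F j i : ℝ) := by
    rw [sum1' hM]
    · refine Finset.sum_congr rfl fun i _ => ?_
      rw [sum1' hM]
      · refine Finset.sum_congr rfl fun j _ => ?_
        rw [hff]
      · intro b hb
        rw [hf0 _ b (Or.inr hb), Complex.ofReal_zero, mul_zero]
    · intro a ha
      refine Finset.sum_eq_zero fun b _ => ?_
      rw [hf0 a b (Or.inl ha), Complex.ofReal_zero, mul_zero]
  rw [← hL, main, sum1 hM]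
  · rw [Complex.ofReal_sum]
    refine Finset.sum_congr rfl fun i hi => ?_
    have hi' := Finset.mem_range.1 hi
    have hτ := tau_sq ht hq hblk (a := c + i) (by omega)
    unfold tau at hτ
    rw [hτ, hcoeff]
    have hp := prod_yn ht M (c + i) (by omega)
    have hpC : ∏ l ∈ range (c + i), ((yn M (c + i) : ℂ) - yn M l) =
        ((sf M (c + i) * sf M (2 * (c + i) + 1) / sf M (c + i + 1) : ℝ) : ℂ) := by
      rw [← hp]; push_cast; rfl
    rw [hpC, ← Complex.ofReal_mul, ← Complex.ofReal_mul, ← Complex.ofReal_div]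
    congr 1
    have n1 : sg M ((c : ℝ) + 1) ≠ 0 := sgn_ne' ht (by omega)
    have n2 : sf M (2 * c + 1) ≠ 0 := sf_ne ht (by omega)
    have n3 : sf M (c + i) ≠ 0 := sf_ne ht (by omega)
    have n4 : sf M (2 * (c + i) + 1) ≠ 0 := sf_ne ht (by omega)
    have n5 : sg M (((c + i : ℕ) : ℝ) + 1) ≠ 0 := sgn_ne' ht (by omega)
    have n6 : sf M c ≠ 0 := sf_ne ht (by omega)
    have n7 : sf M i ≠ 0 := sf_ne ht (by omega)
    have n8 : sf M (2 * c + 1 + i) ≠ 0 := sf_ne ht (by omega)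
    have n9 : (2 * (M : ℝ) + 1) ≠ 0 := by positivity
    rw [hκ]
    simp only
    rw [hF.ksq, hq.2.1 M c i (by omega), hD, sf_succ M c, sf_succ M (c + i),
      show 2 * c + 2 * i + 1 = 2 * (c + i) + 1 by ring, show 2 * c + i + 1 = 2 * c + 1 + i by ring]
    unfold wn
    field_simp
  · intro a ha
    rw [hUlt a ha, coeff_zero, Complex.ofReal_zero, mul_zero, zero_div]

end Pool.Agent.H27.CYC
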