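import Pool.Agent.H27.CYC.Trf
import Pool.Agent.H62.CYC.DefsX

set_option autoImplicit false

/-! Project CYC, module TRF2 (helper27). -/

namespace Pool.Agent.H27.CYC.X

open Finset Matrix
open scoped Real
open Pool.Agent.H62.CYC Pool.Agent.H27.CYC

lemma tau_eq (M a : ℕ) (t : ℕ → ℂ) : Pool.Agent.H27.CYC.tau M a t = Pool.Agent.H62.CYC.tau M t a := by
  unfold Pool.Agent.H27.CYC.tau Pool.Agent.H62.CYC.tau
  refine Finset.sum_congr rfl fun i _ => ?_
  unfold wn yn
  push_cast
  rfl

lemma tau_nsq (M a : ℕ) (t : ℕ → ℂ) :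
    Pool.Agent.H27.CYC.tau M a t * Pool.Agent.H27.CYC.tau M a (fun b => star (t b)) =
      ((‖Pool.Agent.H62.CYC.tau M t a‖ ^ 2 : ℝ) : ℂ) := by
  rw [tau_star, Complex.star_def, Complex.mul_conj, Complex.normSq_eq_norm_sq, tau_eq]

open Polynomial in
theorem trf2 (ht : S_TRG) (hq : S_QC) (hd : S_TRD) : S_TRF2 := by
  intro M t c K F k hM hF
  choose R hR1 hR2 hR3 using Rex M c
  set D : ℝ := sg M ((c : ℝ) + 1) * sf M (2 * c + 1) with hD
  set κ : ℕ → ℝ := fun i => k ^ 2 / (Jc M c i * D) with hκ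
  set U : ℕ → ℝ[X] := fun a => if a < c then 0 else
    C (κ (a - c)) * ((∏ l ∈ range c, (X - C (yn M l))) * R (a - c)) with hU
  set f : ℕ → ℕ → ℝ := fun a b => wn M b * (U a).eval (yn M b) with hf
  have hUc : ∀ i : ℕ, U (c + i) = C (κ i) * ((∏ l ∈ range c, (X - C (yn M l))) * R i) := by
    intro i
    rw [hU]
    simp only
    rw [if_neg (by omega), Nat.add_sub_cancel_left]
  have hUlt : ∀ a, a < c → U a = 0 := fun a ha => by rw [hU]; simp only; rw [if_pos ha]
  have hlm : ∀ a : ℕ, 2 - lm M a ^ 2 = yn M a := by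
    intro a
    rw [ht.2.2.1 M a]
    unfold yn
    ring
  have hff : ∀ i j : Fin (K + 1), f (c + i) (c + j) = F i j * F j i := by
    intro i j
    rw [FF ht hq hM hF i j, hR3, hlm]
    show wn M (c + j) * (U (c + i)).eval (yn M (c + j)) = _
    rw [hUc, eval_mul, eval_C, eval_mul, eval_prod]
    simp only [eval_sub, eval_X, eval_C]
    rw [hκ, hD]
    ring
  have hf0 : ∀ a b, a < c ∨ b < c → f a b = 0 := by
    intro a b h
    show wn M b * (U a).eval (yn M b) = 0
    rcases Nat.lt_or_ge a c with ha | ha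
    · rw [hUlt a ha, eval_zero, mul_zero]
    · have hb : b < c := by omega
      obtain ⟨i, rfl⟩ := Nat.exists_eq_add_of_le ha
      rw [hUc, eval_mul, eval_mul, eval_prod, Finset.prod_eq_zero (Finset.mem_range.2 hb) (by simp)]
      ring
  have hsymm : ∀ i < M, ∀ j < M, f i j = f j i := by
    intro a ha b hb
    by_cases h : a < c ∨ b < c
    · rw [hf0 a b h, hf0 b a h.symm]
    · push Not at h
      obtain ⟨i, rfl⟩ := Nat.exists_eq_add_of_le h.1
      obtain ⟨j, rfl⟩ := Nat.exists_eq_add_of_le h.2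
      have h1 := hff ⟨i, by omega⟩ ⟨j, by omega⟩
      have h2 := hff ⟨j, by omega⟩ ⟨i, by omega⟩
      simp only at h1 h2
      rw [h1, h2, mul_comm]
  have hPR : ∀ i, ((∏ l ∈ range c, (X - C (yn M l))) * R i).natDegree ≤ c + i := by
    intro i
    refine natDegree_mul_le.trans ?_
    have := (Pex (yn M) c).1
    have := hR1 i
    omega
  have hdeg : ∀ i < M, (U i).natDegree ≤ i := by
    intro a _
    by_cases h : a < c
    · rw [hUlt a h]; simp
    · push Not at h
      obtain ⟨i, rfl⟩ := Nat.exists_eq_add_of_le h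
      rw [hUc]
      exact (natDegree_C_mul_le _ _).trans (hPR i)
  have hcoeff : ∀ i : ℕ, (U (c + i)).coeff (c + i) = κ i * (-1) ^ i := by
    intro i
    rw [hUc, coeff_C_mul, coeff_mul_add_eq_of_natDegree_le (Pex (yn M) c).1 (hR1 i), (Pex (yn M) c).2, hR2,
      one_mul]
  have main := hd M (yn M) (wn M) f U t (fun b => star (t b))
    (fun i hi j hj hij => yn_ne ht hi hj hij)
    (fun i hi => pow_ne_zero 2 (sgn_ne' ht (by omega))) hsymm hdeg (fun i _ j _ => rfl)
  -- the left side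
  have hL : ∑ i ∈ range M, ∑ j ∈ range M, t i * star (t j) * (f i j : ℂ) =
      ∑ i : Fin (K + 1), ∑ j : Fin (K + 1), t (c + i) * star (t (c + j)) * (F i j * F j i : ℝ) := by
    rw [sum1' hM]
    · refine Finset.sum_congr rfl fun i _ => ?_
      rw [sum1' hM]
      · refine Finset.sum_congr rfl fun j _ => ?_
        rw [hff]
      · intro b hb
        rw [hf0 _ b (Or.inr hb), Complex.ofReal_zero, mul_zero]
    · intro a ha
      refine Finset.sum_eq_zero fun b _ => ?_
      rw [hf0 a b (Or.inl ha), Complex.ofReal_zero, mul_zero]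
  rw [← hL, main, sum1 hM]
  · rw [Complex.ofReal_sum]
    refine Finset.sum_congr rfl fun i hi => ?_
    have hi' := Finset.mem_range.1 hi
    have hτ := tau_nsq M (c + i) t
    unfold Pool.Agent.H27.CYC.tau at hτ
    rw [hτ, hcoeff]
    have hp := prod_yn ht M (c + i) (by omega)
    have hpC : ∏ l ∈ range (c + i), ((yn M (c + i) : ℂ) - yn M l) =
        ((sf M (c + i) * sf M (2 * (c + i) + 1) / sf M (c + i + 1) : ℝ) : ℂ) := by
      rw [← hp]; push_cast; rfl
    rw [hpC, ← Complex.ofReal_mul, ← Complex.ofReal_mul, ← Complex.ofReal_div]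
    congr 1
    have n1 : sg M ((c : ℝ) + 1) ≠ 0 := sgn_ne' ht (by omega)
    have n2 : sf M (2 * c + 1) ≠ 0 := sf_ne ht (by omega)
    have n3 : sf M (c + i) ≠ 0 := sf_ne ht (by omega)
    have n4 : sf M (2 * (c + i) + 1) ≠ 0 := sf_ne ht (by omega)
    have n5 : sg M (((c + i : ℕ) : ℝ) + 1) ≠ 0 := sgn_ne' ht (by omega)
    have n6 : sf M c ≠ 0 := sf_ne ht (by omega)
    have n7 : sf M i ≠ 0 := sf_ne ht (by omega)
    have n8 : sf M (2 * c + 1 + i) ≠ 0 := sf_ne ht (by omega)
    have n9 : (2 * (M : ℝ) + 1) ≠ 0 := by positivity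
    rw [hκ]
    simp only
    rw [hF.ksq, hq.2.1 M c i (by omega), hD, sf_succ M c, sf_succ M (c + i),
      show 2 * c + 2 * i + 1 = 2 * (c + i) + 1 by ring, show 2 * c + i + 1 = 2 * c + 1 + i by ring]
    unfold wn
    field_simp
  · intro a ha
    rw [hUlt a ha, coeff_zero, Complex.ofReal_zero, mul_zero, zero_div]

end Pool.Agent.H27.CYC.X
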